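import Pool.Agent.Helper775.Proj.PSpace

/-!
# Tight substantial maps of projective spaces: `N - d n ≤ n + d (n choose 2)`

Positive answer to Q1, for `F = ℝ, ℂ, ℍ` and all `n ≥ 1`. The definitions `TightMap`, `CechTightMap`,
`Substantial`, `HomologyInjective` are in `Pool/Agent/Helper775/Tight/SingDefs.lean`, `OpenTightMap` and
`ProjSpace` are in `Pool/Agent/Helper775/Proj/Defs.lean`.

Idea: let `P_z` be the top set of `⟨z, f⟩` and `u` the generator of `H^d(FP^n)`. By tightness the
cohomology of `P_z` is `1, u, ..., u^m` with `m = m(z) < n`. Let `B_m = {z : m(z) ≥ m}` and let `G_r` be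
the `r`-fold fibre power of `G = {(x, z) : x ∈ P_z}` over the unit sphere `S^{N-1}`; its fibres over
`(FP^n)^r` are spherically convex, so `G_r` has no cohomology above degree `r d n`. A relative
Leray-Hirsch argument for `G_{r+1} → G_r` over `B_m \ B_{m+1}`, applied to the stratum on which
`(degree of a relative class) + m + d m (m + 1) / 2` is maximal, produces a non-zero class of `G_{m+1}`
in too high a degree as soon as `N > n + d n (n + 1) / 2`.
-/

namespace Pool.Agent.Results.MP_9697d1_gt.TightProjectiveBound

open Pool.Agent.Helper775.Tight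
open scoped Quaternion

/-- Let `n ≥ 1`, `F = ℝ, ℂ, ℍ`, `d = dim F`, and let `f : FP^n → ℝ^N` be a continuous substantial map
which is tight (singular homology mod 2 and open half-spaces; or closed half-spaces and singular or
Čech theory). Then `N ≤ d n + (n + d (n choose 2))`. -/
theorem result {n N : ℕ} (hn : 1 ≤ n) :
    (∀ f : ProjSpace ℝ n → EuclideanSpace ℝ (Fin N), Continuous f → Substantial f →
      (OpenTightMap f ∨ TightMap f ∨ CechTightMap f) → N ≤ 1 * n + (n + 1 * n.choose 2)) ∧
    (∀ f : ProjSpace ℂ n → EuclideanSpace ℝ (Fin N), Continuous f → Substantial f →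
      (OpenTightMap f ∨ TightMap f ∨ CechTightMap f) → N ≤ 2 * n + (n + 2 * n.choose 2)) ∧
    (∀ f : ProjSpace ℍ[ℝ] n → EuclideanSpace ℝ (Fin N), Continuous f → Substantial f →
      (OpenTightMap f ∨ TightMap f ∨ CechTightMap f) → N ≤ 4 * n + (n + 4 * n.choose 2)) :=
  proj_final hn

end Pool.Agent.Results.MP_9697d1_gt.TightProjectiveBound
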